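import Pool.Agent.Y116.MT.BBDefs
import Pool.Agent.Y112.KD.Main

/-!
# Kimura finiteness and extensions of the base field: definitions
-/

set_option autoImplicit false

open CategoryTheory Limits MonoidalCategory Pretriangulated Triangulated
open Pool.Agent.Y116.MT Pool.Agent.Y112.SR Pool.Agent.Y112.KD

namespace Pool.Agent.Y116.KF

universe v u w

section

variable {C : Type u} [Category.{v} C] [Preadditive C] [HasZeroObject C] [HasShift C ℤ]
  [∀ n : ℤ, (shiftFunctor C n).Additive] [Pretriangulated C] [MonoidalCategory C]
  [SymmetricCategory C] [TensorTriangulated C] {E : Type w} [Field E]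

/-- `S` is the total cohomology of the realisation `R`: the super vector space of `X` is the direct sum
of the cohomology groups `H^i(X)`, the even part is the sum of the groups of even degree. What is used
of it: `S` is zero on a morphism if and only if all `H^i` are zero, and the involution `par` of `S` is
`1` on the objects with cohomology in even degrees only and `-1` on the objects with cohomology in odd
degrees only. -/
structure IsTotal (R : Realisation C E) (S : SuperRealisation C E) : Prop where
  map {X Y : C} (f : X ⟶ Y) : S.H.map f = 0 ↔ ∀ i : ℤ, R.H.map (f⟦i⟧') = 0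
  even (X : C) : (∀ i : ℤ, ¬ Even i → IsZero (R.H.obj (X⟦i⟧))) → S.par X = 𝟙 _
  odd (X : C) : (∀ i : ℤ, Even i → IsZero (R.H.obj (X⟦i⟧))) → S.par X = -𝟙 _

end

/-- Kimura's conjecture: all Chow motives are finite-dimensional. -/
def Kimura {C : Type u} [Category.{v} C] [Preadditive C] [MonoidalCategory C] [SymmetricCategory C]
    (Chow : ObjectProperty C) : Prop := ∀ P : C, Chow P → KimuraFinite P

end Pool.Agent.Y116.KF
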