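import Pool.Agent.Y112.KD.Main

/-!
# Exterior powers of objects with even realisation, symmetric powers of objects with odd realisation
-/

set_option autoImplicit false
set_option linter.unusedSectionVars false
set_option linter.unusedSimpArgs false
set_option backward.isDefEq.respectTransparency false
set_option backward.defeqAttrib.useBackward true

open CategoryTheory Limits MonoidalCategory
open Pool.Agent.Y112.SR Pool.Agent.Y112.KD
open Pool.Agent.TH829.Kim (F)

namespace Pool.Agent.Y116.KF

universe v u w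

section

variable {C : Type u} [Category.{v} C] [Preadditive C] [Linear ℚ C] [MonoidalCategory C]
  [MonoidalPreadditive C]

/-- The tensor product is automatically `ℚ`-linear. -/
lemma monoidalLinear : MonoidalLinear ℚ C where
  whiskerLeft_smul X Y Z r f := map_rat_smul (tensorLeft X).mapAddHom r f
  smul_whiskerRight r X Y f Z := map_rat_smul (tensorRight Z).mapAddHom r f

end

section

variable {C : Type u} [Category.{v} C] [Preadditive C] [Linear ℚ C] [MonoidalCategory C]
  [MonoidalPreadditive C] [MonoidalLinear ℚ C] [SymmetricCategory C]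
  [RightRigidCategory C] {K : Type w} [Field K] (S : SuperRealisation C K)

lemma finrank_unit : Module.finrank K (S.H.obj (𝟙_ C)) = 1 := by
  have e : 𝟙_ (ModuleCat.{w} K) ≅ S.H.obj (𝟙_ C) := Functor.Monoidal.εIso S.H
  have h1 := LinearEquiv.finrank_eq e.toLinearEquiv
  rw [← h1]
  exact Module.finrank_self K

include S in
lemma trq_unit (hU : UnitQ C) (x : 𝟙_ C ⟶ 𝟙_ C) : trq hU (𝟙_ C) x • 𝟙 (𝟙_ C) = x := by
  have hc := R_charZero S
  have h1 : trq hU (𝟙_ C) (1 : End (𝟙_ C)) = 1 := by
    have h2 := trq_one S hU (X := 𝟙_ C) 1 (by rw [S.par_unit]; simp)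
    rw [h2, finrank_unit]
    norm_num
  obtain ⟨q, hq⟩ := hU.ex x
  have h3 : trq hU (𝟙_ C) x = q := by
    have h4 : (x : End (𝟙_ C)) = q • (1 : End (𝟙_ C)) := hq
    rw [h4, map_smul, h1, smul_eq_mul, mul_one]
  rw [h3, ← hq]

include S in
/-- The contraction of all factors is the trace. -/
lemma trq_ff (hU : UnitQ C) (X : C) (n : ℕ) (x : tp X n ⟶ tp X n) :
    trq hU (tp X n) x • 𝟙 (𝟙_ C) = ff X n x := by
  induction n with
  | zero => exact trq_unit S hU x
  | succ n ih =>
    rw [← trq_ptr S hU]
    exact ih _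

lemma gg_one (η : ℚ) (X : C) (n : ℕ) :
    gg η n (fun _ : Fin n => (1 : End X)) = (n.factorial : ℚ) • asym η X n := by
  have h3 : Dn n (fun _ : Fin n => 𝟙 X) = 𝟙 _ := by
    induction n with
    | zero => rfl
    | succ n ih => rw [Dn_succ, ih, id_tensorHom_id]
  have h4 : Dn n (fun i : Fin n => ((fun _ : Fin n => (1 : End X)) i : X ⟶ X)) = 𝟙 _ := h3
  rw [gg, h4, Category.id_comp]

include S in
/-- The trace of the (anti)symmetrizer. -/
lemma trq_asym (hU : UnitQ C) {η : ℚ} (hη : η * η = 1) (X : C) (n : ℕ) :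
    (n.factorial : ℚ) * trq hU (tp X n) (asym η X n) =
      ∏ i ∈ Finset.range n, (trq hU X (1 : End X) + η * i) := by
  have h1 := ff_gg hU hη n (fun _ : Fin n => (1 : End X))
  rw [gg_one, ← trq_ff S hU, F_one] at h1
  have h2 := hU.inj h1
  rw [← h2]
  exact ((trq hU (tp X n)).map_smul (n.factorial : ℚ) (asym η X n)).symm

lemma par_tp {X : C} {d : K} (hX : S.par X = d • 𝟙 _) (n : ℕ) : S.par (tp X n) = (d ^ n) • 𝟙 _ := by
  induction n with
  | zero => rw [S.par_unit, pow_zero, one_smul]
  | succ n ih => rw [par_tensor_smul S ih hX, pow_succ]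

/-- Large exterior powers of objects with even realisation (`d = 1`), and large symmetric powers of
objects with odd realisation (`d = -1`), have zero realisation. -/
theorem pure_asym (hU : UnitQ C) {X : C} {d : ℚ} (hd : d * d = 1)
    (hX : S.par X = (d : K) • 𝟙 _) : ∃ n : ℕ, 1 ≤ n ∧ S.H.map (asym (-d) X n) = 0 := by
  have hc := R_charZero S
  refine ⟨Module.finrank K (S.H.obj X) + 1, by omega, ?_⟩
  set n := Module.finrank K (S.H.obj X) + 1 with hn
  have hd' : (-d) * (-d) = 1 := by rw [neg_mul_neg, hd]
  have h1 : trq hU (tp X n) (asym (-d) X n) = 0 := by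
    have h2 := trq_asym S hU hd' X n
    rw [trq_one S hU d hX] at h2
    have h3 : ∏ i ∈ Finset.range n, (d * (Module.finrank K (S.H.obj X) : ℚ) + -d * i) = 0 := by
      apply Finset.prod_eq_zero (i := Module.finrank K (S.H.obj X))
      · rw [Finset.mem_range]
        omega
      · ring
    rw [h3] at h2
    exact (mul_eq_zero.mp h2).resolve_left (by exact_mod_cast Nat.factorial_ne_zero n)
  have h4 := real_tr S hU (asym (-d) X n)
  have h5 : S.H.map (asym (-d) X n) ≫ S.par (tp X n) = ((d : K) ^ n) • S.H.map (asym (-d) X n) := by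
    rw [par_tp S hX, Linear.comp_smul, Category.comp_id]
  have hdn : ((d : K) ^ n) ≠ 0 := by
    apply pow_ne_zero
    intro h0
    have : d = 0 := by exact_mod_cast h0
    rw [this] at hd
    norm_num at hd
  have h0 := S.finite (tp X n)
  have h6 : LinearMap.trace K (S.H.obj (tp X n)) (S.H.map (asym (-d) X n)).hom = 0 := by
    have h7 : ((d : K) ^ n) * LinearMap.trace K (S.H.obj (tp X n))
        (S.H.map (asym (-d) X n)).hom = 0 := by
      rw [← smul_eq_mul, ← map_smul, ← ModuleCat.hom_smul, ← h5]
      refine h4.symm.trans ?_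
      rw [h1, Rat.cast_zero]
    exact (mul_eq_zero.mp h7).resolve_left hdn
  have h8 : IsIdempotentElem (S.H.map (asym (-d) X n)).hom := by
    have h9 : S.H.map (asym (-d) X n) ≫ S.H.map (asym (-d) X n) = S.H.map (asym (-d) X n) := by
      rw [← Functor.map_comp, asym_idem hd']
    exact congrArg ModuleCat.Hom.hom h9
  have h9 := (LinearMap.isProj_range_iff_isIdempotentElem _).2 h8
  have h10 := h9.trace
  rw [h6] at h10
  have h11 : Module.finrank K (LinearMap.range (S.H.map (asym (-d) X n)).hom) = 0 := by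
    exact_mod_cast h10.symm
  have h12 : LinearMap.range (S.H.map (asym (-d) X n)).hom = ⊥ := Submodule.finrank_eq_zero.mp h11
  apply ModuleCat.hom_ext
  exact LinearMap.range_eq_bot.mp h12

end

end Pool.Agent.Y116.KF
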