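import Pool.Agent.Y116.KF.Defs
import Pool.Agent.Y116.KF.Pure
import Pool.Agent.Y116.MT.BB4
import Pool.Agent.Y116.MT.RegW

/-!
# Kimura finiteness and extensions of the base field
-/

set_option autoImplicit false
set_option linter.unusedSectionVars false
set_option linter.unusedSimpArgs false
set_option backward.isDefEq.respectTransparency false
set_option backward.defeqAttrib.useBackward true

open CategoryTheory Limits MonoidalCategory Pretriangulated Triangulated
open Pool.Agent.Y116.MT Pool.Agent.Y112.SR Pool.Agent.Y112.KD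

namespace Pool.Agent.Y116.KF

universe v u v' u' w

open Functor.LaxMonoidal

section

variable {C₀ : Type u'} [Category.{v'} C₀] [Preadditive C₀] [HasZeroObject C₀] [HasShift C₀ ℤ]
  [∀ n : ℤ, (shiftFunctor C₀ n).Additive] [Pretriangulated C₀]
  [MonoidalCategory C₀] [SymmetricCategory C₀] [MonoidalPreadditive C₀] [TensorTriangulated C₀]
  [RightRigidCategory C₀] [Linear ℚ C₀] [IsIdempotentComplete C₀]
  {C : Type u} [Category.{v} C] [Preadditive C] [HasZeroObject C] [HasShift C ℤ]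
  [∀ n : ℤ, (shiftFunctor C n).Additive] [Pretriangulated C]
  [MonoidalCategory C] [SymmetricCategory C] [MonoidalPreadditive C] [TensorTriangulated C]
  [RightRigidCategory C] [Linear ℚ C] [IsIdempotentComplete C]
  {E : Type w} [Field E] {R₀ : Realisation C₀ E} {R : Realisation C E}
  {Chow₀ : ObjectProperty C₀} {Chow : ObjectProperty C} {T₀ : C₀} {T : C}
  {F : C₀ ⥤ C} [F.Monoidal] [F.CommShift ℤ]
  (hE : IsExtension F Chow₀ Chow R₀ R)
  (hM₀ : IsMotives Chow₀ T₀ (fun _ : Unit => R₀)) (hD₀ : StandardD Chow₀ R₀)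
  (hN₀ : ∀ (P : C₀) (f : P ⟶ P), Chow₀ P → HTriv R₀ f → IsNilpotent (show End P from f))

include hE hM₀ hD₀ hN₀

/-- Nilpotence, from the small field to the large field. -/
theorem up_nil (hC : IsChow Chow) (P : C) (f : P ⟶ P) (hP : Chow P)
    (hf : HTriv R f) : IsNilpotent (show End P from f) := by
  have := hE.additive
  obtain ⟨Q, Q', d, c, f', h', hQ, hQ', e1, e2, e3, hW⟩ :=
    hE.spread (P ⊗ Pᘁ) (η_ P Pᘁ) (f ▷ Pᘁ) (hC.tensor _ _ hP (hC.dual _ hP))
  obtain ⟨N, hN⟩ := hW.nilpotent (hf.whisker _)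
  obtain ⟨g, hg⟩ := reg_all' hM₀ hN₀ hD₀ hQ' hQ d
  set w : Q ⟶ Q := ((show End Q from h') ^ N : End Q) with hw
  have hdu : ∀ i : ℤ, R₀.H.map (d⟦i⟧') ≫ R₀.H.map ((𝟙 Q - g ≫ d)⟦i⟧') = 0 := by
    intro i
    rw [← Functor.map_comp, ← Functor.map_comp, Preadditive.comp_sub, Category.comp_id,
      Functor.map_sub, Functor.map_sub, hg, sub_self]
  have hv : HTriv R₀ (w ≫ (𝟙 Q - g ≫ d)) := by
    intro i
    obtain ⟨y, hy⟩ := hN i
    rw [Functor.map_comp, Functor.map_comp, hy, Category.assoc, hdu, comp_zero]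
  obtain ⟨M, hMz⟩ := hN₀ Q _ hQ hv
  -- powers of `h'`
  have key : ∀ n : ℕ, F.map (((show End Q from h') ^ n : End Q) : Q ⟶ Q) ≫ c =
      c ≫ (((show End P from f) ^ n : End P) : P ⟶ P) ▷ Pᘁ := by
    intro n
    induction n with
    | zero =>
      change F.map (𝟙 Q) ≫ c = c ≫ (𝟙 P) ▷ Pᘁ
      simp
    | succ n ih =>
      rw [pow_comp', pow_comp', Functor.map_comp, Category.assoc, e3, ← Category.assoc, ih,
        comp_whiskerRight, Category.assoc]
  have hwv : F.map (w - w ≫ (𝟙 Q - g ≫ d)) ≫ c = 0 := by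
    have h1 : w - w ≫ (𝟙 Q - g ≫ d) = (w ≫ g) ≫ d := by
      rw [Preadditive.comp_sub, Category.comp_id, sub_sub_cancel, Category.assoc]
    rw [h1, Functor.map_comp, Category.assoc, e2, comp_zero]
  have hwc : F.map w ≫ c = c ≫ (((show End P from f) ^ N : End P) : P ⟶ P) ▷ Pᘁ := key N
  -- `w ^ k` and `v ^ k` agree on `c`
  have key2 : ∀ k : ℕ, F.map ((((show End Q from w) ^ k : End Q) : Q ⟶ Q)) ≫ c =
      F.map ((((show End Q from (w ≫ (𝟙 Q - g ≫ d))) ^ k : End Q) : Q ⟶ Q)) ≫ c := by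
    intro k
    induction k with
    | zero => rfl
    | succ k ih =>
      rw [pow_comp', pow_comp', Functor.map_comp, Functor.map_comp, Category.assoc, Category.assoc,
        hwc, ← Category.assoc, ih, Category.assoc, ← hwc]
      rw [Functor.map_sub, Preadditive.sub_comp, sub_eq_zero] at hwv
      rw [hwv]
  refine ⟨N * M, ?_⟩
  have h4 : F.map (((show End Q from h') ^ (N * M) : End Q) : Q ⟶ Q) ≫ c = 0 := by
    rw [pow_mul]
    have h5 := key2 M
    have h6 : (((show End Q from (w ≫ (𝟙 Q - g ≫ d))) ^ M : End Q) : Q ⟶ Q) = 0 := hMz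
    rw [h6, Functor.map_zero, zero_comp] at h5
    exact h5
  have h5 : nm (((show End P from f) ^ (N * M) : End P) : P ⟶ P) = 0 := by
    rw [nm, e1]
    simp only [Category.assoc]
    rw [← key, h4, comp_zero, comp_zero]
  exact eq_zero_of_nm _ h5

end

section

variable {C : Type u} [Category.{v} C] [Preadditive C] [HasZeroObject C] [HasShift C ℤ]
  [∀ n : ℤ, (shiftFunctor C n).Additive] [Pretriangulated C]
  [MonoidalCategory C] [SymmetricCategory C] [MonoidalPreadditive C] [TensorTriangulated C]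
  [RightRigidCategory C] [Linear ℚ C] [IsIdempotentComplete C]
  {E : Type w} [Field E] {R : Realisation C E} {S : SuperRealisation C E}
  {Chow : ObjectProperty C} {T : C} (hS : IsTotal R S)

/-- The unit. -/
lemma unitQ (R : Realisation C E) (h : ∀ e : 𝟙_ C ⟶ 𝟙_ C, ∃ q : ℚ, e = q • 𝟙 (𝟙_ C)) : UnitQ C where
  ex := h
  ne h0 := not_isZero_unit R ((IsZero.iff_id_eq_zero _).2 h0)

lemma chow_tp (hC : IsChow Chow) {P : C} (hP : Chow P) (n : ℕ) : Chow (tp P n) := by
  induction n with
  | zero => exact hC.unit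
  | succ n ih => exact hC.tensor _ _ ih hP

include hS

/-- Nilpotence follows from finiteness. -/
lemma nil_of (hM : IsMotives Chow T (fun _ : Unit => R)) (hK : Kimura Chow) (P : C) (f : P ⟶ P)
    (hP : Chow P) (hf : HTriv R f) : IsNilpotent (show End P from f) := by
  have := monoidalLinear (C := C)
  have hU := unitQ R hM.unit_end
  exact nil_of_kimura S hU (hK P hP) (inRad_of_H S hU ((hS.map f).2 hf))

/-- Finiteness follows from the standard conjecture D and nilpotence. -/
lemma kimura_of (hM : IsMotives Chow T (fun _ : Unit => R)) (hD : StandardD Chow R)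
    (hN : ∀ (P : C) (f : P ⟶ P), Chow P → HTriv R f → IsNilpotent (show End P from f)) :
    Kimura Chow := by
  have := monoidalLinear (C := C)
  have hU := unitQ R hM.unit_end
  intro P hP
  obtain ⟨A, B, hA, hB, ⟨d⟩, h1, h2⟩ := split_pred hM hN hD hP Even
  have key : ∀ (X : C) (e : ℚ), Chow X → e * e = 1 → S.par X = (e : E) • 𝟙 _ →
      ∃ n : ℕ, 1 ≤ n ∧ asym (-e) X n = 0 := by
    intro X e hX he hpar
    obtain ⟨n, hn, h3⟩ := pure_asym S hU he hpar
    refine ⟨n, hn, ?_⟩
    have he' : (-e) * (-e) = 1 := by rw [neg_mul_neg, he]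
    obtain ⟨m, hm⟩ := hN (tp X n) (asym (-e) X n) (chow_tp hM.chow hX n) ((hS.map _).1 h3)
    have h4 : IsIdempotentElem (show End (tp X n) from asym (-e) X n) := asym_idem he' X n
    have h5 : (show End (tp X n) from asym (-e) X n) = 0 := by
      rcases m with - | m
      · rw [pow_zero] at hm
        have h6 : (show End (tp X n) from asym (-e) X n) =
            (show End (tp X n) from asym (-e) X n) * 1 := (mul_one _).symm
        rw [h6, hm, mul_zero]
      · rwa [h4.pow_succ_eq] at hm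
    exact h5
  refine ⟨A, B, ⟨d.i, d.p, d.j, d.q, d.ip, d.jq, d.total⟩, ?_, ?_⟩
  · rw [isEven_iff]
    refine key A 1 hA (by norm_num) ?_
    rw [hS.even A h1]
    simp
  · rw [isOdd_iff]
    obtain ⟨n, hn, h3⟩ := key B (-1) hB (by norm_num) (by
      rw [hS.odd B h2]
      simp)
    refine ⟨n, hn, ?_⟩
    rwa [neg_neg] at h3

end

section

variable {C₀ : Type u'} [Category.{v'} C₀] [Preadditive C₀] [HasZeroObject C₀] [HasShift C₀ ℤ]
  [∀ n : ℤ, (shiftFunctor C₀ n).Additive] [Pretriangulated C₀]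
  [MonoidalCategory C₀] [SymmetricCategory C₀] [MonoidalPreadditive C₀] [TensorTriangulated C₀]
  [RightRigidCategory C₀] [Linear ℚ C₀] [IsIdempotentComplete C₀]
  {C : Type u} [Category.{v} C] [Preadditive C] [HasZeroObject C] [HasShift C ℤ]
  [∀ n : ℤ, (shiftFunctor C n).Additive] [Pretriangulated C]
  [MonoidalCategory C] [SymmetricCategory C] [MonoidalPreadditive C] [TensorTriangulated C]
  [RightRigidCategory C] [Linear ℚ C] [IsIdempotentComplete C]
  {E : Type w} [Field E] {R₀ : Realisation C₀ E} {R : Realisation C E}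
  {S₀ : SuperRealisation C₀ E} {S : SuperRealisation C E} (hS₀ : IsTotal R₀ S₀) (hS : IsTotal R S)
  {Chow₀ : ObjectProperty C₀} {Chow : ObjectProperty C} {T₀ : C₀} {T : C}
  {F : C₀ ⥤ C} [F.Monoidal] [F.CommShift ℤ]
  (hE : IsExtension F Chow₀ Chow R₀ R)
  (hM₀ : IsMotives Chow₀ T₀ (fun _ : Unit => R₀)) (hM : IsMotives Chow T (fun _ : Unit => R))

include hS₀ hS hE hM₀ hM

/-- Kimura's conjecture is independent of the base field, in the presence of the standard
conjecture D. -/
theorem kimura_base : (StandardD Chow₀ R₀ ∧ Kimura Chow₀) ↔ (StandardD Chow R ∧ Kimura Chow) := by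
  constructor
  · rintro ⟨hD₀, hK₀⟩
    have hD := hE.up_D hM₀.chow hM.chow hD₀
    exact ⟨hD, kimura_of hS hM hD (up_nil hE hM₀ hD₀ (nil_of hS₀ hM₀ hK₀) hM.chow)⟩
  · rintro ⟨hD, hK⟩
    have hD₀ := hE.down_D hD
    exact ⟨hD₀, kimura_of hS₀ hM₀ hD₀ (hE.down_N (nil_of hS hM hK))⟩

end

end Pool.Agent.Y116.KF
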